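import Pool.Agent.Helper68.QS.St1

/-!
# Project QD, module HVM: the affine homeomorphism is a Moebius transformation composed with the
normalised symmetric solution
-/

open MeasureTheory Set Filter Topology Complex
open scoped ContDiff ComplexConjugate ENNReal

namespace Pool.Agent.Helper98.QS

open Pool.Agent.Helper68.QS Pool.Agent.Helper68.QC
open Pool.Agent.Helper61.QE (D Dx rf SU Fu FD Ab sy nuT muT syX syY Kap En Et)

lemma hvm_conj_diff {h : ℂ → ℂ} {z : ℂ} (hz : DifferentiableAt ℝ h z) :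
    DifferentiableAt ℝ (fun x => conj (h x)) z :=
  (Complex.conjCLE : ℂ →L[ℝ] ℂ).differentiableAt.comp z hz

/-- The affine function of `h` solves the Beltrami equation. -/
lemma hvm_sol {h : ℂ → ℂ} {a b v : ℂ} (ha : a ≠ 0) (hd : DifferentiableOn ℂ h D)
    {μ : ℂ → ℂ}
    (hμ : ∀ z ∈ D, z ≠ 0 → μ z = conj (conj (b / a)) * (conj (deriv h z) / deriv h z)) :
    Sol μ D (fun z => a * h z + b * conj (h z) + v) := by
  have hoD : IsOpen D := Metric.isOpen_ball
  have hR : ContDiffOn ℝ 1 h D := by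
    have h1 : ContDiffOn ℂ 1 h D := hd.contDiffOn hoD
    exact h1.restrict_scalars ℝ
  have hRd : ∀ z ∈ D, DifferentiableAt ℝ h z := fun z hz =>
    (hR.differentiableOn (by simp)).differentiableAt (hoD.mem_nhds hz)
  have hconj : ContDiffOn ℝ 1 (fun z => conj (h z)) D :=
    (Complex.conjCLE : ℂ →L[ℝ] ℂ).contDiff.comp_contDiffOn hR
  have hC1 : ContDiffOn ℝ 1 (fun z => a * h z + b * conj (h z) + v) D :=
    ((contDiffOn_const.mul hR).add (contDiffOn_const.mul hconj)).add contDiffOn_const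
  refine ⟨_, _, wd_smoothOn hoD hC1, ?_⟩
  have h0 : ∀ᵐ z : ℂ, z ≠ 0 := by
    rw [ae_iff]
    simp
  filter_upwards [ae_restrict_of_ae h0, ae_restrict_mem hoD.measurableSet] with z hz0 hz
  have hdz : DifferentiableAt ℂ h z := hd.differentiableAt (hoD.mem_nhds hz)
  have hr := hRd z hz
  have hc := hvm_conj_diff hr
  have t1 : DifferentiableAt ℝ (fun x => a * h x) z := hr.const_mul a
  have t2 : DifferentiableAt ℝ (fun x => b * conj (h x)) z := hc.const_mul b
  have t3 : DifferentiableAt ℝ (fun x => a * h x + b * conj (h x)) z := t1.add t2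
  have t4 : DifferentiableAt ℝ (fun _ : ℂ => v) z := differentiableAt_const v
  have e1 : dz (fun z => a * h z + b * conj (h z) + v) z = a * deriv h z := by
    rw [dz_add t3 t4, dz_add t1 t2, dz_const_mul a hr, dz_const_mul b hc, dz_conj hr, dz_holo hdz,
      dzb_holo hdz, dz_const]
    simp
  have e2 : dzb (fun z => a * h z + b * conj (h z) + v) z = b * conj (deriv h z) := by
    rw [dzb_add t3 t4, dzb_add t1 t2, dzb_const_mul a hr, dzb_const_mul b hc, dzb_conj hr,
      dz_holo hdz, dzb_holo hdz, dzb_const]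
    simp
  rw [e1, e2, hμ z hz hz0, Complex.conj_conj]
  by_cases h' : deriv h z = 0
  · simp [h']
  · field_simp

/-- HVM. -/
theorem pHVM (_hEX : Pool.Agent.Helper68.QC.StEX) (hFAC : Pool.Agent.Helper68.QC.StFAC)
    (hSUB : Pool.Agent.Helper61.QE.StSUB) (hEDD : Pool.Agent.Helper61.QE.StEDD)
    (hCOE : Pool.Agent.Helper61.QE.StCOE) (hLFH : Pool.Agent.Helper68.QS.StLFH)
    (hAUD : Pool.Agent.Helper68.QS.StAUD) : Pool.Agent.Helper68.QS.StHVM := by
  intro h H H' a b v hd hne hH
  have hoD : IsOpen D := Metric.isOpen_ball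
  have ha : a ≠ 0 := by
    rintro rfl
    have := hH.lt
    rw [norm_zero] at this
    exact absurd this (not_lt.2 (norm_nonneg b))
  have ht1 : ‖conj (b / a)‖ < 1 := by
    rw [RCLike.norm_conj, norm_div, div_lt_one (norm_pos_iff.2 ha)]
    exact hH.lt
  obtain ⟨-, -, -, hden, -, -, hgrp, -, -, hinv⟩ := hSUB
  have hSU1 : SU (1 : SL) := by
    constructor <;> simp
  have hK : Kap (1 : Unit →* SL) 0 (fun _ => (0 : ℂ)) := by
    refine ⟨⟨measurable_const, fun z => by simp⟩, fun z _ => rfl, fun γ => ?_⟩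
    exact ae_of_all _ fun z => by simp
  obtain ⟨-, hX, -⟩ := hCOE Unit (1 : Unit →* SL) h (fun _ => (0 : ℂ)) 0 (fun γ => hSU1)
    ⟨hd, fun γ => ⟨0, fun z _ => by simp [mob, den]⟩⟩ le_rfl hK
  obtain ⟨hBel, -, hsym, -, hform⟩ := hX (conj (b / a))
  obtain ⟨hVD, -, -, -, -, -, -⟩ := hEDD _ ht1 _ hBel hsym
  set V : ℂ ≃ₜ ℂ := nq (syX h (conj (b / a))) with hV
  have hVm : ∀ z ∈ D, V.symm z ∈ D := by
    intro z hz
    rw [← hVD] at hz
    obtain ⟨x, hx, rfl⟩ := hz
    rw [V.symm_apply_apply]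
    exact hx
  have hVm' : ∀ z ∈ D, V z ∈ D := fun z hz => by
    have : V z ∈ V '' D := ⟨z, hz, rfl⟩
    rwa [hVD] at this
  have hsol : Sol (syX h (conj (b / a))) D (fun z => a * h z + b * conj (h z) + v) :=
    hvm_sol ha hd hform
  have hG := hFAC _ ht1 _ hBel D _ hoD hsol
  rw [← hV, hVD] at hG
  have hQc : ContinuousOn (fun z => H (V.symm z)) D :=
    hH.cont.comp V.symm.continuous.continuousOn hVm
  have hHinj : InjOn H D := fun x hx y hy hxy => by
    rw [← hH.l x hx, ← hH.l y hy, hxy]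
  have hQi : InjOn (fun z => H (V.symm z)) D := fun x hx y hy hxy =>
    V.symm.injective (hHinj (hVm x hx) (hVm y hy) hxy)
  have hQm : MapsTo (fun z => H (V.symm z)) D D := fun z hz => hH.m (hVm z hz)
  have hhol : DifferentiableOn ℂ (fun z => h ((fun z => H (V.symm z)) z)) D := by
    refine hG.congr fun z hz => ?_
    exact hH.eq _ (hVm z hz)
  have hQh : DifferentiableOn ℂ (fun z => H (V.symm z)) D :=
    hLFH D D _ h hoD hoD (convex_ball (0 : ℂ) 1).isPreconnected hQc hQi hQm hd hne hhol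
  have hQs : (fun z => H (V.symm z)) '' D = D := by
    refine Subset.antisymm hQm.image_subset fun z hz => ?_
    refine ⟨V (H' z), hVm' _ (hH.m' hz), ?_⟩
    change H (V.symm (V (H' z))) = z
    rw [V.symm_apply_apply]
    exact hH.r z hz
  obtain ⟨A, hA, hAQ⟩ := hAUD _ hQh hQi hQs
  refine ⟨A⁻¹, (hgrp A A hA hA).2.1, fun z hz => ?_⟩
  have h1 : mob A (V z) = H z := by
    rw [hAQ (V z) (hVm' z hz), V.symm_apply_apply]
  have h2 : ‖V z‖ ≤ 1 := by
    have := hVm' z hz
    rw [Metric.mem_ball, dist_zero_right] at this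
    exact this.le
  rw [← h1]
  exact ((hinv A (V z) (hden A hA (V z) h2)).1).symm

end Pool.Agent.Helper98.QS
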